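import Mathlib

/-! MP_e54d61_gt, Q2, in the negative (the negated form holds): a homeomorphism which is conjugate
to its inverse has stable flow length zero.

`timeOneMaps X` is the set of the time-one maps of all flows on `X`, and `FlowGroup X` is the group
it generates; for a closed orientable surface `X = Σ_g` this is the group `Homeo₀(Σ_g)` of the
problem (the problem file says that this set generates it).  The theorem holds on every space `X`. -/

set_option autoImplicit false

open Filter Topology

namespace Pool.Agent.Results.MP_e54d61_gt.ReversibleFlowLength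

/-- The set of all time-one maps `φ¹` of flows (continuous one-parameter groups of
homeomorphisms, Mathlib's `Flow ℝ X`) on the space `X`. -/
def timeOneMaps (X : Type) [TopologicalSpace X] : Set (X ≃ₜ X) :=
  {h | ∃ φ : Flow ℝ X, ∀ x, h x = φ 1 x}

/-- The group generated by the time-one maps of flows on `X`. -/
def FlowGroup (X : Type) [TopologicalSpace X] : Subgroup (X ≃ₜ X) :=
  Subgroup.closure (timeOneMaps X)

/-- The word length of `h` with respect to a set `S` of elements of a group: the least number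
of elements of `S` whose product is `h`. -/
noncomputable def wordLength {G : Type} [Group G] (S : Set G) (h : G) : ℕ :=
  sInf {n | ∃ l : List G, l.length = n ∧ (∀ s ∈ l, s ∈ S) ∧ l.prod = h}

/-- The flow length: the word length with respect to the time-one maps of flows. -/
noncomputable def flowLength {X : Type} [TopologicalSpace X] (h : X ≃ₜ X) : ℕ :=
  wordLength (timeOneMaps X) h

section

variable {X : Type} [TopologicalSpace X]

theorem inv_mem_timeOneMaps {h : X ≃ₜ X} (hh : h ∈ timeOneMaps X) : h⁻¹ ∈ timeOneMaps X := by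
  obtain ⟨φ, hφ⟩ := hh
  refine ⟨⟨fun t x => φ (-t) x, ?_, ?_, ?_⟩, fun x => ?_⟩
  · exact φ.continuous continuous_fst.neg continuous_snd
  · intro s t x
    show φ (-(s + t)) x = φ (-s) (φ (-t) x)
    rw [neg_add, Flow.map_add]
  · intro x
    show φ (-0) x = x
    rw [neg_zero, Flow.map_zero_apply]
  · show h.symm x = φ (-1) x
    rw [Homeomorph.symm_apply_eq, hφ, ← Flow.map_add]
    simp

theorem conj_mem_timeOneMaps {h : X ≃ₜ X} (hh : h ∈ timeOneMaps X) (g : X ≃ₜ X) :
    g * h * g⁻¹ ∈ timeOneMaps X := by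
  obtain ⟨φ, hφ⟩ := hh
  refine ⟨⟨fun t x => g (φ t (g.symm x)), ?_, ?_, ?_⟩, fun x => ?_⟩
  · exact g.continuous.comp (φ.continuous continuous_fst (g.symm.continuous.comp continuous_snd))
  · intro s t x
    show g (φ (s + t) (g.symm x)) = g (φ s (g.symm (g (φ t (g.symm x)))))
    rw [Homeomorph.symm_apply_apply, Flow.map_add]
  · intro x
    show g (φ 0 (g.symm x)) = x
    rw [Flow.map_zero_apply, Homeomorph.apply_symm_apply]
  · show g (h (g.symm x)) = g (φ 1 (g.symm x))
    rw [hφ]

/-- every element of the flow group is a finite product of time-one maps -/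
theorem exists_list {h : X ≃ₜ X} (hh : h ∈ FlowGroup X) :
    ∃ l : List (X ≃ₜ X), (∀ s ∈ l, s ∈ timeOneMaps X) ∧ l.prod = h := by
  induction hh using Subgroup.closure_induction with
  | mem x hx => exact ⟨[x], by simpa using hx, by simp⟩
  | one => exact ⟨[], by simp, rfl⟩
  | mul x y _ _ hx hy =>
    obtain ⟨l, h1, h2⟩ := hx
    obtain ⟨m, k1, k2⟩ := hy
    refine ⟨l ++ m, fun s hs => ?_, by rw [List.prod_append, h2, k2]⟩
    rcases List.mem_append.1 hs with h | h
    · exact h1 s h
    · exact k1 s h
  | inv x _ hx =>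
    obtain ⟨l, h1, h2⟩ := hx
    refine ⟨(l.map (fun s => s⁻¹)).reverse, fun s hs => ?_, ?_⟩
    · obtain ⟨t, ht, rfl⟩ := List.mem_map.1 (List.mem_reverse.1 hs)
      exact inv_mem_timeOneMaps (h1 t ht)
    · rw [← h2, List.prod_inv_reverse]

theorem exists_list_flowLength {h : X ≃ₜ X} (hh : h ∈ FlowGroup X) :
    ∃ l : List (X ≃ₜ X), l.length = flowLength h ∧ (∀ s ∈ l, s ∈ timeOneMaps X) ∧
      l.prod = h := by
  have hne : {n | ∃ l : List (X ≃ₜ X), l.length = n ∧ (∀ s ∈ l, s ∈ timeOneMaps X) ∧
      l.prod = h}.Nonempty := by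
    obtain ⟨l, h1, h2⟩ := exists_list hh
    exact ⟨l.length, l, rfl, h1, h2⟩
  exact Nat.sInf_mem hne

theorem flowLength_le {h : X ≃ₜ X} (l : List (X ≃ₜ X)) (h1 : ∀ s ∈ l, s ∈ timeOneMaps X)
    (h2 : l.prod = h) : flowLength h ≤ l.length :=
  Nat.sInf_le ⟨l, rfl, h1, h2⟩

theorem flowLength_mul_le {a b : X ≃ₜ X} (ha : a ∈ FlowGroup X) (hb : b ∈ FlowGroup X) :
    flowLength (a * b) ≤ flowLength a + flowLength b := by
  obtain ⟨l, h1, h2, h3⟩ := exists_list_flowLength ha
  obtain ⟨m, k1, k2, k3⟩ := exists_list_flowLength hb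
  have := flowLength_le (h := a * b) (l ++ m) (by
    intro s hs
    rcases List.mem_append.1 hs with h | h
    · exact h2 s h
    · exact k2 s h) (by rw [List.prod_append, h3, k3])
  rwa [List.length_append, h1, k1] at this

theorem flowLength_conj_le {a : X ≃ₜ X} (ha : a ∈ FlowGroup X) (g : X ≃ₜ X) :
    flowLength (g * a * g⁻¹) ≤ flowLength a := by
  obtain ⟨l, h1, h2, h3⟩ := exists_list_flowLength ha
  have := flowLength_le (h := g * a * g⁻¹) (l.map (fun s => g * s * g⁻¹)) (by
    intro s hs
    obtain ⟨t, ht, rfl⟩ := List.mem_map.1 hs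
    exact conj_mem_timeOneMaps (h2 t ht) g) (by
    rw [← h3]
    exact (map_list_prod (MulAut.conj g).toMonoidHom l).symm)
  rwa [List.length_map, h1] at this

theorem flowLength_inv_le {a : X ≃ₜ X} (ha : a ∈ FlowGroup X) :
    flowLength a⁻¹ ≤ flowLength a := by
  obtain ⟨l, h1, h2, h3⟩ := exists_list_flowLength ha
  have := flowLength_le (h := a⁻¹) (l.map (fun s => s⁻¹)).reverse (by
    intro s hs
    obtain ⟨t, ht, rfl⟩ := List.mem_map.1 (List.mem_reverse.1 hs)
    exact inv_mem_timeOneMaps (h2 t ht)) (by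
    rw [← h3, List.prod_inv_reverse])
  rwa [List.length_reverse, List.length_map, h1] at this

end

/-- Let `X` be a topological space (such as the surface `Σ_g`), and let `G` be the group generated
by the time-one maps of flows on `X`.  Every element of `G` is a finite product of time-one maps of
flows, and if `f ∈ G` is such that `f ^ k` is conjugate in `G` to `f ^ l` for some integers
`k ≠ l` (in particular, if `f` is conjugate in `G` to `f⁻¹`), then the flow lengths of the powers
`f ^ (m * (l - k))` are bounded, and the stable flow length of `f` is zero. -/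
theorem result (X : Type) [TopologicalSpace X] :
    (∀ f ∈ FlowGroup X, ∃ l : List (X ≃ₜ X),
      l.length = flowLength f ∧ (∀ s ∈ l, s ∈ timeOneMaps X) ∧ l.prod = f) ∧
    (∀ f ∈ FlowGroup X, (∃ h ∈ FlowGroup X, h * f * h⁻¹ = f⁻¹) →
      Tendsto (fun n : ℕ => (flowLength (f ^ n) : ℝ) / n) atTop (𝓝 0)) ∧
    (∀ f ∈ FlowGroup X, ∀ k l : ℤ, k ≠ l → ∀ h ∈ FlowGroup X, h * f ^ k * h⁻¹ = f ^ l →
      (∀ m : ℤ, flowLength (f ^ (m * (l - k))) ≤ 2 * flowLength h) ∧
      Tendsto (fun n : ℕ => (flowLength (f ^ n) : ℝ) / n) atTop (𝓝 0)) := by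
  have key : ∀ f ∈ FlowGroup X, ∀ k l : ℤ, k ≠ l → ∀ h ∈ FlowGroup X,
      h * f ^ k * h⁻¹ = f ^ l →
      (∀ m : ℤ, flowLength (f ^ (m * (l - k))) ≤ 2 * flowLength h) ∧
      Tendsto (fun n : ℕ => (flowLength (f ^ n) : ℝ) / n) atTop (𝓝 0) := by
    intro f hf k l hkl h hh hconj
    have hbound : ∀ m : ℤ, flowLength (f ^ (m * (l - k))) ≤ 2 * flowLength h := by
      intro m
      have e1 : h * f ^ (k * m) * h⁻¹ = f ^ (l * m) := by
        rw [zpow_mul, zpow_mul, ← hconj, conj_zpow]
      have e2 : f ^ (m * (l - k)) = h * (f ^ (k * m) * h⁻¹ * (f ^ (k * m))⁻¹) := by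
        have : h * (f ^ (k * m) * h⁻¹ * (f ^ (k * m))⁻¹) = (h * f ^ (k * m) * h⁻¹) *
            (f ^ (k * m))⁻¹ := by group
        rw [this, e1, ← zpow_neg, ← zpow_add]
        congr 1
        ring
      rw [e2]
      have hinv : h⁻¹ ∈ FlowGroup X := inv_mem hh
      have hmem : f ^ (k * m) * h⁻¹ * (f ^ (k * m))⁻¹ ∈ FlowGroup X :=
        mul_mem (mul_mem (zpow_mem hf _) hinv) (inv_mem (zpow_mem hf _))
      calc flowLength (h * (f ^ (k * m) * h⁻¹ * (f ^ (k * m))⁻¹))
          ≤ flowLength h + flowLength (f ^ (k * m) * h⁻¹ * (f ^ (k * m))⁻¹) :=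
            flowLength_mul_le hh hmem
        _ ≤ flowLength h + flowLength h⁻¹ := by
            have := flowLength_conj_le hinv (f ^ (k * m))
            omega
        _ ≤ flowLength h + flowLength h := by
            have := flowLength_inv_le hh
            omega
        _ = 2 * flowLength h := by ring
    refine ⟨hbound, ?_⟩
    -- every power is a bounded factor away from a multiple of `l - k`
    set d : ℤ := l - k with hd
    have hd0 : d ≠ 0 := sub_ne_zero.2 (Ne.symm hkl)
    set D : ℕ := d.natAbs with hD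
    have hD0 : 0 < D := Int.natAbs_pos.2 hd0
    set C : ℕ := 2 * flowLength h + ∑ r ∈ Finset.range D, flowLength (f ^ r) with hC
    have hall : ∀ n : ℕ, flowLength (f ^ n) ≤ C := by
      intro n
      have hdecomp : f ^ n = f ^ (D * (n / D)) * f ^ (n % D) := by
        rw [← pow_add, Nat.div_add_mod]
      have hfirst : flowLength (f ^ (D * (n / D))) ≤ 2 * flowLength h := by
        rcases Int.natAbs_eq d with h1 | h1
        · have := hbound (n / D : ℕ)
          rw [h1, ← hD, ← Nat.cast_mul, zpow_natCast, mul_comm] at this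
          exact this
        · have := hbound (-(n / D : ℕ))
          rw [h1, ← hD, neg_mul_neg, ← Nat.cast_mul, zpow_natCast, mul_comm] at this
          exact this
      have hsecond : flowLength (f ^ (n % D)) ≤ ∑ r ∈ Finset.range D, flowLength (f ^ r) :=
        Finset.single_le_sum (f := fun r => flowLength (f ^ r)) (fun _ _ => Nat.zero_le _)
          (Finset.mem_range.2 (Nat.mod_lt n hD0))
      rw [hdecomp]
      refine (flowLength_mul_le (pow_mem hf _) (pow_mem hf _)).trans ?_
      rw [hC]
      exact add_le_add hfirst hsecond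
    refine squeeze_zero (g := fun n : ℕ => (C : ℝ) / n) (fun n => by positivity) (fun n => ?_)
      (tendsto_const_div_atTop_nhds_zero_nat (C : ℝ))
    exact div_le_div_of_nonneg_right (by exact_mod_cast hall n) (Nat.cast_nonneg n)
  refine ⟨fun f hf => exists_list_flowLength hf, fun f hf hconj => ?_, key⟩
  obtain ⟨h, hh, hc⟩ := hconj
  exact (key f hf 1 (-1) (by norm_num) h hh (by rw [zpow_one, zpow_neg_one]; exact hc)).2

end Pool.Agent.Results.MP_e54d61_gt.ReversibleFlowLength
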